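import Pool.Agent.H.MP_34e3ac_co.Main

namespace Pool.Agent.Results.MP_34e3ac_co.Nonsingular
open Pool.Agent.H.MP_34e3ac_co

theorem result (m n : ℕ) (_hm : 1 ≤ m) (_hn : 1 ≤ n) :
    (A m n).det ≠ 0 ↔ Odd m ∧ Odd n ∧ min m n < (m + n + 1).minFac :=
  main m n

end Pool.Agent.Results.MP_34e3ac_co.Nonsingular
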